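import Mathlib
import Pool.Agent.Lib.RNG.Three

/-!
Reserve (replaced by TopRatio).  Problem MP_92898d_an, Q1 (ranges of cardinality functions of absolutely convergent series).

We determine all three-element ranges whose members are finite.  In particular the natural
necessary condition that some power of two belongs to the range and divides all its finite members,
which characterises the ranges that contain the continuum, is not sufficient for ranges that do not
contain it: `{0, 1, m}` is not a range for any finite `m ≥ 4`.

Idea of the necessity.  After removing zero terms, all fibres have `0`, `1` or `m ≥ 4` elements,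
and for each term `x n` the values at `t` and `t ± x n` are linked.  A fibre with `m` elements has a
majority digit at each place, all digits but at most one agree with it, and changing a majority
digit leads to a fibre of the same kind.  By compactness the majority expansion itself belongs to
the fibre; so the other `m - 1` expansions of the fibre differ from it on pairwise disjoint sets of
places, and unions of these sets give further expansions, which contradicts the count.
-/

namespace Pool.Agent.Lib.Reserve.MP_92898d_an.ThreeElements

open Cardinal Set

/-- The subsum `∑ ε n * x n` of the series `x` selected by the 0-1 sequence `ε`. -/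
noncomputable def subsum (x : ℕ → ℝ) (ε : ℕ → Bool) : ℝ := ∑' n, (if ε n then x n else 0)

/-- The cardinality function `F_x` of the series `x`. -/
noncomputable def cardFun (x : ℕ → ℝ) (t : ℝ) : Cardinal.{0} := #{ε : ℕ → Bool | subsum x ε = t}

/-- `C` is the range of the cardinality function of an absolutely convergent real series. -/
def IsRange (C : Set Cardinal.{0}) : Prop :=
  ∃ x : ℕ → ℝ, Summable (fun n => |x n|) ∧ Set.range (cardFun x) = C

/-- **Result.**  For natural numbers `0 < a < b` the set `{0, a, b}` is a range if and only if
`a = 2 ^ k` and `b = 2 * 2 ^ k` or `b = 3 * 2 ^ k` for some `k`. -/
theorem result (a b : ℕ) (ha : 0 < a) (hab : a < b) :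
    IsRange {0, (a : Cardinal.{0}), (b : Cardinal.{0})} ↔
      ∃ k : ℕ, a = 2 ^ k ∧ (b = 2 * 2 ^ k ∨ b = 3 * 2 ^ k) :=
  Pool.Agent.Lib.RNG.three_iff ha hab

end Pool.Agent.Lib.Reserve.MP_92898d_an.ThreeElements
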